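import Mathlib

set_option autoImplicit false

namespace Pool.Agent.Results.MP_f5e42a_co.NoPointTwentySevenSevenths

open Module

/-- `W` is an equi-isoclinic tight fusion frame of `n` subspaces of dimension `r` in `𝕜^d`. -/
structure IsEITFF (𝕜 : Type) [RCLike 𝕜] (d r n : ℕ)
    (W : Fin n → Submodule 𝕜 (EuclideanSpace 𝕜 (Fin d))) : Prop where
  finrank_eq : ∀ i, finrank 𝕜 (W i) = r
  isoclinic : ∃ α : ℝ, 0 ≤ α ∧ α ≤ 1 ∧
    ∀ i j, i ≠ j → ∀ x ∈ W j, ‖(W i).starProjection x‖ = α * ‖x‖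
  tight : ∃ c : 𝕜, ∀ x, ∑ i, (W i).starProjection x = c • x

section basics

variable {𝕜 : Type} [RCLike 𝕜] {d r n : ℕ}
  {W : Fin n → Submodule 𝕜 (EuclideanSpace 𝕜 (Fin d))}

lemma trace_starProjection (U : Submodule 𝕜 (EuclideanSpace 𝕜 (Fin d))) :
    LinearMap.trace 𝕜 (EuclideanSpace 𝕜 (Fin d))
      (U.starProjection : EuclideanSpace 𝕜 (Fin d) →ₗ[𝕜] EuclideanSpace 𝕜 (Fin d)) =
      (finrank 𝕜 U : 𝕜) := by
  have h : LinearMap.IsProj U
      (U.starProjection : EuclideanSpace 𝕜 (Fin d) →ₗ[𝕜] EuclideanSpace 𝕜 (Fin d)) := by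
    refine ⟨fun x => ?_, fun x hx => ?_⟩
    · exact U.starProjection_apply_mem x
    · exact Submodule.starProjection_eq_self_iff.2 hx
  exact h.trace

/-- The frame constant is `n r / d`. -/
lemma const_eq (hr : ∀ i, finrank 𝕜 (W i) = r) {c : 𝕜}
    (hc : ∀ x, ∑ i, (W i).starProjection x = c • x) : c * (d : 𝕜) = (n : 𝕜) * (r : 𝕜) := by
  have h1 : (∑ i, ((W i).starProjection :
      EuclideanSpace 𝕜 (Fin d) →ₗ[𝕜] EuclideanSpace 𝕜 (Fin d))) = c • LinearMap.id := by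
    ext1 x
    simp only [LinearMap.coe_sum, Finset.sum_apply, LinearMap.smul_apply, LinearMap.id_apply]
    exact hc x
  have h2 := congrArg (LinearMap.trace 𝕜 (EuclideanSpace 𝕜 (Fin d))) h1
  rw [map_sum, map_smul, LinearMap.trace_id] at h2
  simp only [trace_starProjection, hr, Finset.sum_const, Finset.card_univ, Fintype.card_fin,
    finrank_euclideanSpace, smul_eq_mul, nsmul_eq_mul] at h2
  exact h2.symm

lemma re_inner_proj (U : Submodule 𝕜 (EuclideanSpace 𝕜 (Fin d)))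
    (x : EuclideanSpace 𝕜 (Fin d)) :
    RCLike.re (inner 𝕜 (U.starProjection x) x) = ‖U.starProjection x‖ ^ 2 := by
  have h : inner 𝕜 (U.starProjection x) (x - U.starProjection x) = 0 := by
    have := U.starProjection_inner_eq_zero x _ (U.starProjection_apply_mem x)
    rw [← inner_conj_symm, this, map_zero]
  rw [inner_sub_right, sub_eq_zero] at h
  rw [h, inner_self_eq_norm_sq_to_K]
  norm_cast

/-- The relation between the frame constant and the isoclinic parameter. -/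
lemma param_eq {α : ℝ} (hiso : ∀ i j, i ≠ j → ∀ x ∈ W j, ‖(W i).starProjection x‖ = α * ‖x‖)
    {c : 𝕜} (hc : ∀ x, ∑ i, (W i).starProjection x = c • x) (j : Fin n)
    {x : EuclideanSpace 𝕜 (Fin d)} (hx : x ∈ W j) (hx0 : x ≠ 0) :
    RCLike.re c = 1 + ((n : ℝ) - 1) * α ^ 2 := by
  have h1 := congrArg (fun y => RCLike.re (inner 𝕜 y x)) (hc x)
  simp only [sum_inner, map_sum, re_inner_proj] at h1
  have h2 : ∀ i ∈ Finset.univ.erase j, ‖(W i).starProjection x‖ ^ 2 = α ^ 2 * ‖x‖ ^ 2 := by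
    intro i hi
    rw [hiso i j (Finset.ne_of_mem_erase hi) x hx]; ring
  rw [← Finset.add_sum_erase _ _ (Finset.mem_univ j), Finset.sum_congr rfl h2,
    Submodule.starProjection_eq_self_iff.2 hx, Finset.sum_const,
    Finset.card_erase_of_mem (Finset.mem_univ j), Finset.card_univ, Fintype.card_fin,
    inner_smul_left, inner_self_eq_norm_sq_to_K, nsmul_eq_mul] at h1
  have h3 : RCLike.re ((starRingEnd 𝕜) c * ((‖x‖ : ℝ) : 𝕜) ^ 2) = RCLike.re c * ‖x‖ ^ 2 := by
    have : (((‖x‖ : ℝ) : 𝕜) ^ 2) = (((‖x‖ ^ 2 : ℝ)) : 𝕜) := by push_cast; rfl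
    rw [this, RCLike.re_mul_ofReal, RCLike.conj_re]
  rw [h3] at h1
  have hn : 1 ≤ n := by have := j.2; omega
  rw [Nat.cast_sub hn, Nat.cast_one] at h1
  have hx' : ‖x‖ ^ 2 ≠ 0 := by positivity
  apply mul_right_cancel₀ hx'
  linarith

end basics

/-- If four of the subspaces satisfy `4 r > d`, there is a nontrivial relation. -/
lemma exists_relation {𝕜 : Type} [RCLike 𝕜] {d r : ℕ}
    (V : Fin 4 → Submodule 𝕜 (EuclideanSpace 𝕜 (Fin d)))
    (hr : ∀ i, finrank 𝕜 (V i) = r) (hd : d < 4 * r) :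
    ∃ w : Fin 4 → EuclideanSpace 𝕜 (Fin d), (∀ i, w i ∈ V i) ∧ ∑ i, w i = 0 ∧ w ≠ 0 := by
  let f : (∀ i, V i) →ₗ[𝕜] EuclideanSpace 𝕜 (Fin d) :=
    ∑ i, (V i).subtype ∘ₗ LinearMap.proj i
  have hf : ¬ Function.Injective f := by
    intro hinj
    have h1 := LinearMap.finrank_le_finrank_of_injective hinj
    rw [Module.finrank_pi_fintype] at h1
    simp only [hr, Finset.sum_const, Finset.card_univ, Fintype.card_fin, smul_eq_mul,
      finrank_euclideanSpace] at h1
    omega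
  rw [← LinearMap.ker_eq_bot, Submodule.eq_bot_iff] at hf
  push Not at hf
  obtain ⟨w, hw, hw0⟩ := hf
  refine ⟨fun i => (w i : EuclideanSpace 𝕜 (Fin d)), fun i => (w i).2, ?_, ?_⟩
  · have := LinearMap.mem_ker.1 hw
    simpa [f] using this
  · intro h
    apply hw0
    ext1 i
    have := congrFun h i
    simpa using this

/-- Equality case of the triangle inequality for three vectors. -/
lemma three_vectors {𝕜 : Type} [RCLike 𝕜] {d : ℕ} (a b c w : EuclideanSpace 𝕜 (Fin d))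
    (hsum : w + (a + b + c) = 0) (ha : ‖a‖ = (1 / 3 : ℝ) * ‖w‖) (hb : ‖b‖ = (1 / 3 : ℝ) * ‖w‖)
    (hc : ‖c‖ = (1 / 3 : ℝ) * ‖w‖) : (3 : 𝕜) • a + w = 0 ∧ (3 : 𝕜) • b + w = 0 ∧
      (3 : 𝕜) • c + w = 0 := by
  have key : ∀ u : EuclideanSpace 𝕜 (Fin d), ‖u‖ = (1 / 3 : ℝ) * ‖w‖ →
      ‖(3 : 𝕜) • u + w‖ ^ 2 = 2 * ‖w‖ ^ 2 + 6 * RCLike.re (inner 𝕜 u w) := by
    intro u hu
    rw [norm_add_sq (𝕜 := 𝕜), norm_smul, hu, inner_smul_left]
    have h3 : (starRingEnd 𝕜) (3 : 𝕜) = ((3 : ℝ) : 𝕜) := by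
      have : (3 : 𝕜) = ((3 : ℝ) : 𝕜) := by rw [RCLike.ofReal_ofNat]
      rw [this, RCLike.conj_ofReal]
    have h4 : ‖(3 : 𝕜)‖ = 3 := by
      have : (3 : 𝕜) = ((3 : ℝ) : 𝕜) := by rw [RCLike.ofReal_ofNat]
      rw [this, RCLike.norm_ofReal]; norm_num
    rw [h3, RCLike.re_ofReal_mul, h4]
    ring
  have hin : RCLike.re (inner 𝕜 a w) + RCLike.re (inner 𝕜 b w) + RCLike.re (inner 𝕜 c w) =
      - ‖w‖ ^ 2 := by
    have h : a + b + c = -w := by
      rw [← add_eq_zero_iff_neg_eq.1 hsum]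
    rw [← map_add, ← map_add, ← inner_add_left, ← inner_add_left, h, inner_neg_left, map_neg,
      inner_self_eq_norm_sq_to_K]
    norm_cast
  have ka := key a ha
  have kb := key b hb
  have kc := key c hc
  have pa := sq_nonneg ‖(3 : 𝕜) • a + w‖
  have pb := sq_nonneg ‖(3 : 𝕜) • b + w‖
  have pc := sq_nonneg ‖(3 : 𝕜) • c + w‖
  refine ⟨?_, ?_, ?_⟩
  · rw [← norm_eq_zero, ← sq_eq_zero_iff]; linarith
  · rw [← norm_eq_zero, ← sq_eq_zero_iff]; linarith
  · rw [← norm_eq_zero, ← sq_eq_zero_iff]; linarith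

/-- Equality case: at parameter `1/3` a nontrivial relation among four subspaces is a regular
simplex, so the projections act on it in the obvious way. -/
lemma simplex {𝕜 : Type} [RCLike 𝕜] {d : ℕ}
    (V : Fin 4 → Submodule 𝕜 (EuclideanSpace 𝕜 (Fin d)))
    (hiso : ∀ i j, i ≠ j → ∀ x ∈ V j, ‖(V i).starProjection x‖ = (1 / 3 : ℝ) * ‖x‖)
    (w : Fin 4 → EuclideanSpace 𝕜 (Fin d)) (hw : ∀ i, w i ∈ V i) (hsum : ∑ i, w i = 0)
    (hw0 : w ≠ 0) :
    w 0 ≠ 0 ∧ ∀ j, j ≠ 0 → (3 : 𝕜) • (V j).starProjection (w 0) + w j = 0 := by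
  have hrow : ∀ i, ∑ j, (V i).starProjection (w j) = 0 := by
    intro i
    rw [← map_sum, hsum, map_zero]
  have hself : ∀ i, (V i).starProjection (w i) = w i := fun i =>
    Submodule.starProjection_eq_self_iff.2 (hw i)
  have hn : ∀ i j, i ≠ j → ‖(V i).starProjection (w j)‖ = (1 / 3 : ℝ) * ‖w j‖ :=
    fun i j hij => hiso i j hij _ (hw j)
  have r0 : w 0 + ((V 0).starProjection (w 1) + (V 0).starProjection (w 2) +
      (V 0).starProjection (w 3)) = 0 := by
    have := hrow 0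
    rw [Fin.sum_univ_four, hself] at this
    rw [← this]; abel
  have r1 : w 1 + ((V 1).starProjection (w 0) + (V 1).starProjection (w 2) +
      (V 1).starProjection (w 3)) = 0 := by
    have := hrow 1
    rw [Fin.sum_univ_four, hself] at this
    rw [← this]; abel
  have r2 : w 2 + ((V 2).starProjection (w 0) + (V 2).starProjection (w 1) +
      (V 2).starProjection (w 3)) = 0 := by
    have := hrow 2
    rw [Fin.sum_univ_four, hself] at this
    rw [← this]; abel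
  have r3 : w 3 + ((V 3).starProjection (w 0) + (V 3).starProjection (w 1) +
      (V 3).starProjection (w 2)) = 0 := by
    have := hrow 3
    rw [Fin.sum_univ_four, hself] at this
    rw [← this]; abel
  have bound : ∀ a b c w : EuclideanSpace 𝕜 (Fin d), w + (a + b + c) = 0 →
      ‖w‖ ≤ ‖a‖ + ‖b‖ + ‖c‖ := by
    intro a b c w h
    have h1 : w = -(a + b + c) := eq_neg_of_add_eq_zero_left h
    calc ‖w‖ = ‖a + b + c‖ := by rw [h1, norm_neg]
      _ ≤ ‖a‖ + ‖b‖ + ‖c‖ := norm_add₃_le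
  have b0 := bound _ _ _ _ r0
  have b1 := bound _ _ _ _ r1
  have b2 := bound _ _ _ _ r2
  have b3 := bound _ _ _ _ r3
  rw [hn _ _ (by decide), hn _ _ (by decide), hn _ _ (by decide)] at b0 b1 b2 b3
  have e1 : ‖w 1‖ = ‖w 0‖ := by linarith
  have e2 : ‖w 2‖ = ‖w 0‖ := by linarith
  have e3 : ‖w 3‖ = ‖w 0‖ := by linarith
  refine ⟨?_, ?_⟩
  · intro h0
    apply hw0
    rw [h0, norm_zero] at e1 e2 e3
    funext i
    fin_cases i
    · exact h0
    · exact norm_eq_zero.1 e1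
    · exact norm_eq_zero.1 e2
    · exact norm_eq_zero.1 e3
  · intro j hj
    have hall : ∀ k, ‖w k‖ = ‖w 0‖ := by
      intro k
      fin_cases k
      · rfl
      · exact e1
      · exact e2
      · exact e3
    have hn' : ∀ i j, i ≠ j → ‖(V i).starProjection (w j)‖ = (1 / 3 : ℝ) * ‖w i‖ := by
      intro i j hij
      rw [hn i j hij, hall i, hall j]
    fin_cases j
    · exact absurd rfl hj
    · exact (three_vectors _ _ _ _ r1 (hn' 1 0 (by decide)) (hn' 1 2 (by decide))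
        (hn' 1 3 (by decide))).1
    · exact (three_vectors _ _ _ _ r2 (hn' 2 0 (by decide)) (hn' 2 1 (by decide))
        (hn' 2 3 (by decide))).1
    · exact (three_vectors _ _ _ _ r3 (hn' 3 0 (by decide)) (hn' 3 1 (by decide))
        (hn' 3 2 (by decide))).1

/-- There is no equi-isoclinic tight fusion frame of `6` subspaces with `d / r = 27 / 7`, over
the reals or the complex numbers. -/
theorem result (𝕜 : Type) [RCLike 𝕜] (d r : ℕ) (hr : 0 < r) (hdr : 7 * d = 27 * r)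
    (W : Fin 6 → Submodule 𝕜 (EuclideanSpace 𝕜 (Fin d))) : ¬ IsEITFF 𝕜 d r 6 W := by
  rintro ⟨hfr, ⟨α, hα0, -, hiso⟩, c, hc⟩
  -- the relation among the first four subspaces
  obtain ⟨w, hw, hsum, hw0⟩ := exists_relation (fun i : Fin 4 => W (Fin.castLE (by norm_num) i))
    (fun i => hfr _) (by omega : d < 4 * r)
  obtain ⟨k, hk⟩ : ∃ k, w k ≠ 0 := Function.ne_iff.1 hw0
  -- the parameters
  have hc1 : c * (d : 𝕜) = (6 : 𝕜) * (r : 𝕜) := by
    have := const_eq hfr hc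
    exact_mod_cast this
  have hrR : (0 : ℝ) < r := by exact_mod_cast hr
  have hdR : (7 : ℝ) * d = 27 * r := by exact_mod_cast hdr
  have hrK : (r : 𝕜) ≠ 0 := by exact_mod_cast hr.ne'
  have hdK : (7 : 𝕜) * d = 27 * r := by exact_mod_cast hdr
  have hc2 : c = ((14 / 9 : ℝ) : 𝕜) := by
    have h1 : c * (27 * r) = 42 * (r : 𝕜) := by
      rw [← hdK]; linear_combination 7 * hc1
    have h2 : (c - 14 / 9) * (27 * (r : 𝕜)) = 0 := by
      linear_combination h1
    have h3 : (27 * (r : 𝕜)) ≠ 0 := mul_ne_zero (by norm_num) hrK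
    have h4 := sub_eq_zero.1 ((mul_eq_zero.1 h2).resolve_right h3)
    rw [h4]; push_cast; rfl
  have hα : α = 1 / 3 := by
    have h1 := param_eq hiso hc _ (hw k) hk
    rw [hc2, RCLike.ofReal_re] at h1
    have h2 : (α - 1 / 3) * (α + 1 / 3) = 0 := by push_cast at h1; linarith
    rcases mul_eq_zero.1 h2 with h | h
    · linarith
    · linarith
  subst hα
  obtain ⟨hw00, hsimp⟩ := simplex (fun i : Fin 4 => W (Fin.castLE (by norm_num) i))
    (fun i j hij x hx => hiso _ _ (by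
      intro h; exact hij (Fin.castLE_injective _ h)) x hx) w hw hsum hw0
  have s1 : (3 : 𝕜) • (W 1).starProjection (w 0) + w 1 = 0 := hsimp 1 (by decide)
  have s2 : (3 : 𝕜) • (W 2).starProjection (w 0) + w 2 = 0 := hsimp 2 (by decide)
  have s3 : (3 : 𝕜) • (W 3).starProjection (w 0) + w 3 = 0 := hsimp 3 (by decide)
  have s0 : (W 0).starProjection (w 0) = w 0 := Submodule.starProjection_eq_self_iff.2 (hw 0)
  have hw0mem : w 0 ∈ W 0 := hw 0
  -- the last two projections add up to `2/9` on `w 0`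
  have t : (9 : 𝕜) • ((W 4).starProjection (w 0) + (W 5).starProjection (w 0)) =
      (2 : 𝕜) • w 0 := by
    have h1 := hc (w 0)
    rw [Fin.sum_univ_six, s0, hc2] at h1
    rw [Fin.sum_univ_four] at hsum
    have h2 : (9 : 𝕜) • (((14 / 9 : ℝ) : 𝕜) • w 0) = (14 : 𝕜) • w 0 := by
      rw [smul_smul]; congr 1; push_cast; norm_num
    rw [← h1] at h2
    have h3 : (9 : 𝕜) • ((W 4).starProjection (w 0) + (W 5).starProjection (w 0)) =
        (9 : 𝕜) • (w 0 + (W 1).starProjection (w 0) + (W 2).starProjection (w 0) +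
          (W 3).starProjection (w 0) + (W 4).starProjection (w 0) +
          (W 5).starProjection (w 0)) - (9 : 𝕜) • w 0 -
        (3 : 𝕜) • ((3 : 𝕜) • (W 1).starProjection (w 0) + w 1) -
        (3 : 𝕜) • ((3 : 𝕜) • (W 2).starProjection (w 0) + w 2) -
        (3 : 𝕜) • ((3 : 𝕜) • (W 3).starProjection (w 0) + w 3) +
        (3 : 𝕜) • (w 0 + w 1 + w 2 + w 3) - (3 : 𝕜) • w 0 := by module
    rw [h3, h2, s1, s2, s3, hsum]
    module
  have n4 : ‖(W 4).starProjection (w 0)‖ = (1 / 3 : ℝ) * ‖w 0‖ :=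
    hiso 4 0 (by decide) _ hw0mem
  have n5 : ‖(W 5).starProjection (w 0)‖ = (1 / 3 : ℝ) * ‖w 0‖ :=
    hiso 5 0 (by decide) _ hw0mem
  have n45 : ‖(W 4).starProjection ((W 5).starProjection (w 0))‖ =
      (1 / 3 : ℝ) * ‖(W 5).starProjection (w 0)‖ :=
    hiso 4 5 (by decide) _ ((W 5).starProjection_apply_mem _)
  have t4 := congrArg (W 4).starProjection t
  rw [map_smul, map_smul, map_add] at t4
  rw [Submodule.starProjection_eq_self_iff.2 ((W 4).starProjection_apply_mem (w 0))] at t4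
  have t5 : (9 : 𝕜) • (W 4).starProjection ((W 5).starProjection (w 0)) =
      (-7 : 𝕜) • (W 4).starProjection (w 0) := by
    have : (9 : 𝕜) • (W 4).starProjection ((W 5).starProjection (w 0)) =
      (9 : 𝕜) • ((W 4).starProjection (w 0) +
        (W 4).starProjection ((W 5).starProjection (w 0))) -
        (9 : 𝕜) • (W 4).starProjection (w 0) := by module
    rw [this, t4]
    module
  have t6 := congrArg norm t5
  have h9 : ‖(9 : 𝕜)‖ = 9 := by
    have : (9 : 𝕜) = ((9 : ℝ) : 𝕜) := by rw [RCLike.ofReal_ofNat]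
    rw [this, RCLike.norm_ofReal]; norm_num
  have h7 : ‖(-7 : 𝕜)‖ = 7 := by
    have : (-7 : 𝕜) = ((-7 : ℝ) : 𝕜) := by rw [RCLike.ofReal_neg, RCLike.ofReal_ofNat]
    rw [this, RCLike.norm_ofReal]; norm_num
  rw [norm_smul, norm_smul, h9, h7, n45, n5, n4] at t6
  have : 0 < ‖w 0‖ := norm_pos_iff.2 hw00
  linarith

end Pool.Agent.Results.MP_f5e42a_co.NoPointTwentySevenSevenths
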